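import Pool.Agent.Helper41.BS2.DoubleFive
import Pool.Agent.Helper41.BS2.DoubleFour
import Pool.Agent.Helper41.Proj
import Pool.Agent.Helper41.Exist

set_option autoImplicit false

open MeasureTheory ProbabilityTheory
open scoped ENNReal NNReal

namespace Pool.Agent.Results.MP_ef552a_pr.BothDimensions

/-- `B` is a `d`-dimensional Brownian sheet on the closed quadrant with almost surely continuous
paths; the law is prescribed by the characteristic functions of the finite dimensional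
marginals. -/
def IsBrownianSheet (d : ℕ) {Ω : Type} [MeasurableSpace Ω] (P : Measure Ω)
    (B : ℝ × ℝ → Ω → (Fin d → ℝ)) : Prop :=
  (∀ p, Measurable (B p)) ∧
  (∀ᵐ ω ∂P, ContinuousOn (fun p => B p ω) (Set.Ici (0:ℝ) ×ˢ Set.Ici (0:ℝ))) ∧
  (∀ (n : ℕ) (p : Fin n → ℝ × ℝ) (a : Fin n → Fin d → ℝ),
    (∀ i, 0 ≤ (p i).1 ∧ 0 ≤ (p i).2) →
    ∫ ω, Complex.exp (Complex.I * ((∑ i, ∑ k, a i k * B (p i) ω k : ℝ) : ℂ)) ∂P =
      Complex.exp (((-(1/2) * ∑ i, ∑ j, (∑ k, a i k * a j k) *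
          min (p i).1 (p j).1 * min (p i).2 (p j).2 : ℝ) : ℂ)))

/-- the set of pairs of distinct times at which the slice at `s` has a double point -/
def Y {d : ℕ} {Ω : Type} (B : ℝ × ℝ → Ω → (Fin d → ℝ)) (ω : Ω) (s : ℝ) : Set (ℝ × ℝ) :=
  {q : ℝ × ℝ | 0 ≤ q.1 ∧ 0 ≤ q.2 ∧ q.1 ≠ q.2 ∧ B (s, q.1) ω = B (s, q.2) ω}

open Pool.Agent.Helper41

lemma exists_brownianSheet (d : ℕ) :
    ∃ (Ω : Type) (_ : MeasurableSpace Ω) (P : Measure Ω) (_ : IsProbabilityMeasure P)
      (B : ℝ × ℝ → Ω → (Fin d → ℝ)), IsBrownianSheet d P B := by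
  obtain ⟨Ω, mΩ, P, hP, X, hX, hcont⟩ := exists_sheet d
  refine ⟨Ω, mΩ, P, hP, fun p ω k => X (k, p.1.toNNReal, p.2.toNNReal) ω, ?_, ?_, ?_⟩
  · exact fun p => measurable_pi_lambda _ fun k => hX.meas _
  · refine Filter.Eventually.of_forall fun ω => ?_
    refine Continuous.continuousOn ?_
    refine continuous_pi fun k => ?_
    have h1 : Continuous (fun p : ℝ × ℝ => (p.1.toNNReal, p.2.toNNReal)) :=
      (continuous_real_toNNReal.comp continuous_fst).prodMk
        (continuous_real_toNNReal.comp continuous_snd)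
    exact (hcont ω k).comp h1
  · intro n p a hp
    have h1 := hX.char.char_fintype (ι := Fin n × Fin d)
      (fun x => (x.2, (p x.1).1.toNNReal, (p x.1).2.toNNReal)) (fun x => a x.1 x.2)
    have e1 : ∀ ω, (∑ i, ∑ k, a i k * X (k, (p i).1.toNNReal, (p i).2.toNNReal) ω) =
        ∑ x : Fin n × Fin d, a x.1 x.2 *
          X (x.2, (p x.1).1.toNNReal, (p x.1).2.toNNReal) ω := by
      intro ω
      rw [Fintype.sum_prod_type]
    have e2 : ∑ x : Fin n × Fin d, ∑ y : Fin n × Fin d, a x.1 x.2 * a y.1 y.2 *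
        sheetK (x.2, (p x.1).1.toNNReal, (p x.1).2.toNNReal)
          (y.2, (p y.1).1.toNNReal, (p y.1).2.toNNReal) =
        ∑ i, ∑ j, (∑ k, a i k * a j k) * min (p i).1 (p j).1 * min (p i).2 (p j).2 := by
      rw [Fintype.sum_prod_type]
      refine Finset.sum_congr rfl fun i _ => ?_
      rw [Finset.sum_congr rfl fun k _ => Fintype.sum_prod_type _, Finset.sum_comm]
      refine Finset.sum_congr rfl fun j _ => ?_
      rw [Finset.sum_mul, Finset.sum_mul]
      refine Finset.sum_congr rfl fun k _ => ?_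
      rw [Finset.sum_eq_single k]
      · unfold sheetK
        simp only [if_true]
        have hm1 : ((min (p i).1.toNNReal (p j).1.toNNReal : NNReal) : ℝ) =
            min (p i).1 (p j).1 := by
          rw [NNReal.coe_min, Real.coe_toNNReal _ (hp i).1, Real.coe_toNNReal _ (hp j).1]
        have hm2 : ((min (p i).2.toNNReal (p j).2.toNNReal : NNReal) : ℝ) =
            min (p i).2 (p j).2 := by
          rw [NNReal.coe_min, Real.coe_toNNReal _ (hp i).2, Real.coe_toNNReal _ (hp j).2]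
        rw [hm1, hm2]
        ring
      · intro l _ hl
        unfold sheetK
        simp only [if_neg (fun e : k = l => hl e.symm), mul_zero]
      · intro hk
        exact absurd (Finset.mem_univ k) hk
    rw [e2] at h1
    simp_rw [e1]
    refine h1.trans ?_
    congr 1
    push_cast
    ring

/-- scaling in the first variable -/
lemma IsBrownianSheet.scale {d : ℕ} {Ω : Type} [MeasurableSpace Ω] {P : Measure Ω}
    {B : ℝ × ℝ → Ω → (Fin d → ℝ)} (h : IsBrownianSheet d P B) {c : ℝ} (hc : 0 < c) :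
    IsBrownianSheet d P (fun p ω => (√c)⁻¹ • B (c * p.1, p.2) ω) := by
  obtain ⟨h1, h2, h3⟩ := h
  refine ⟨fun p => (h1 (c * p.1, p.2)).const_smul ((√c)⁻¹), ?_, ?_⟩
  · filter_upwards [h2] with ω hω
    have h5 : ContinuousOn (fun p : ℝ × ℝ => B (c * p.1, p.2) ω)
        (Set.Ici (0:ℝ) ×ˢ Set.Ici (0:ℝ)) := by
      have h6 : Continuous (fun p : ℝ × ℝ => (c * p.1, p.2)) := by fun_prop
      refine ContinuousOn.comp (g := fun p => B p ω) (f := fun p : ℝ × ℝ => (c * p.1, p.2))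
        hω h6.continuousOn ?_
      rintro p ⟨hp1, hp2⟩
      exact ⟨mul_nonneg hc.le hp1, hp2⟩
    exact h5.const_smul ((√c)⁻¹)
  · intro n p a hp
    have h4 := h3 n (fun i => (c * (p i).1, (p i).2)) (fun i k => (√c)⁻¹ * a i k)
      (fun i => ⟨mul_nonneg hc.le (hp i).1, (hp i).2⟩)
    have e1 : ∀ ω, (∑ i, ∑ k, (√c)⁻¹ * a i k * B (c * (p i).1, (p i).2) ω k) =
        ∑ i, ∑ k, a i k * ((√c)⁻¹ • B (c * (p i).1, (p i).2) ω) k := by
      intro ω
      refine Finset.sum_congr rfl fun i _ => Finset.sum_congr rfl fun k _ => ?_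
      rw [Pi.smul_apply, smul_eq_mul]
      ring
    have hs : (√c)⁻¹ * (√c)⁻¹ * c = 1 := by
      have h5 : √c * √c = c := Real.mul_self_sqrt hc.le
      have h6 : √c ≠ 0 := (Real.sqrt_pos.2 hc).ne'
      field_simp
      rw [sq, h5]
    have e2 : (∑ i, ∑ j, (∑ k, (√c)⁻¹ * a i k * ((√c)⁻¹ * a j k)) *
        min (c * (p i).1) (c * (p j).1) * min (p i).2 (p j).2) =
        ∑ i, ∑ j, (∑ k, a i k * a j k) * min (p i).1 (p j).1 * min (p i).2 (p j).2 := by
      refine Finset.sum_congr rfl fun i _ => Finset.sum_congr rfl fun j _ => ?_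
      rw [← mul_min_of_nonneg _ _ hc.le]
      have e3 : (∑ k, (√c)⁻¹ * a i k * ((√c)⁻¹ * a j k)) =
          (√c)⁻¹ * (√c)⁻¹ * ∑ k, a i k * a j k := by
        rw [Finset.mul_sum]
        refine Finset.sum_congr rfl fun k _ => ?_
        ring
      rw [e3]
      calc _ = ((√c)⁻¹ * (√c)⁻¹ * c) * ((∑ k, a i k * a j k) * min (p i).1 (p j).1 *
            min (p i).2 (p j).2) := by ring
        _ = _ := by rw [hs, one_mul]
    simp only at h4
    rw [e2] at h4
    simp_rw [e1] at h4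
    exact h4

/-- Double points on the slices `B(s, ·)` of the Brownian sheet. Brownian sheets exist in every
dimension. In dimension five, almost surely EVERY slice has finitely many double points, in fact
at most two unordered pairs of times (four ordered pairs). In dimension four, for every `c > 0` and
every time window `[a, a + l)` there is an event of probability at least `1/36` on which some
slice with `c ≤ s ≤ 2c` has infinitely many double points with both times in the window. -/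
theorem result :
    (∀ d : ℕ, ∃ (Ω : Type) (_ : MeasurableSpace Ω) (P : Measure Ω) (_ : IsProbabilityMeasure P)
      (B : ℝ × ℝ → Ω → (Fin d → ℝ)), IsBrownianSheet d P B) ∧
    (∀ (Ω : Type) [MeasurableSpace Ω] (P : Measure Ω) [IsProbabilityMeasure P]
      (B : ℝ × ℝ → Ω → (Fin 5 → ℝ)), IsBrownianSheet 5 P B →
      ∀ᵐ ω ∂P, ∀ s : ℝ, 0 < s → (Y B ω s).Finite ∧ (Y B ω s).encard ≤ 4) ∧
    (∀ (Ω : Type) [MeasurableSpace Ω] (P : Measure Ω) [IsProbabilityMeasure P]
      (B : ℝ × ℝ → Ω → (Fin 4 → ℝ)), IsBrownianSheet 4 P B →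
      ∀ c a l : ℝ, 0 < c → 0 ≤ a → 0 < l →
        ∃ A : Set Ω, MeasurableSet A ∧ ENNReal.ofReal (1 / 36) ≤ P A ∧
          ∀ ω ∈ A, ∃ s : ℝ, c ≤ s ∧ s ≤ 2 * c ∧
            (Y B ω s ∩ (Set.Ico a (a + l) ×ˢ Set.Ico a (a + l))).Infinite) := by
  refine ⟨exists_brownianSheet, ?_, ?_⟩
  · rintro Ω _ P _ B ⟨hmeas, hcont, hchar⟩
    have hS := toX_isSheet P B hmeas hchar
    have hc : ∀ᵐ ω ∂P, ∀ c, Continuous (fun p : ℝ≥0 × ℝ≥0 => toX B (c, p.1, p.2) ω) := by
      filter_upwards [hcont] with ω hω c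
      exact toX_cont B hω c
    filter_upwards [hS.ae_few_doubles (by simp) hc] with ω hω s hs
    obtain ⟨hT, hM⟩ := hω ⟨s, hs.le⟩ hs
    set U : Set (ℝ × ℝ) := {q : ℝ × ℝ | 0 ≤ q.1 ∧ q.1 < q.2 ∧ B (s, q.1) ω = B (s, q.2) ω} with hU
    have hinj : Set.InjOn Prod.snd U := by
      have key : ∀ a a' b : ℝ, 0 ≤ a → a < a' → a' < b → B (s, a) ω = B (s, b) ω →
          B (s, a') ω = B (s, b) ω → False := by
        intro a a' b ha h1 h2 e1 e2
        refine hT ⟨a, ha⟩ ⟨a', (ha.trans h1.le)⟩ ⟨b, ((ha.trans h1.le).trans h2.le)⟩ h1 h2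
          (fun k => ?_) (fun k => ?_)
        · exact congrFun (e1.trans e2.symm) k
        · exact congrFun e2 k
      rintro ⟨a, b⟩ ⟨ha, hab, hB⟩ ⟨a', b'⟩ ⟨ha', hab', hB'⟩ hbb
      simp only at ha hab hB ha' hab' hB' hbb
      subst hbb
      rcases lt_trichotomy a a' with h | h | h
      · exact (key a a' b ha h hab' hB hB').elim
      · rw [h]
      · exact (key a' a b ha' h hab hB' hB).elim
    have hR : (Prod.snd '' U).encard ≤ 2 := by
      by_contra hcon
      rw [not_le] at hcon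
      have h3 : (3 : ℕ∞) ≤ (Prod.snd '' U).encard := by
        have := Order.add_one_le_of_lt hcon
        have e : (2 : ℕ∞) + 1 = 3 := by norm_num
        rwa [e] at this
      obtain ⟨W, hW, hW3⟩ := Set.exists_subset_encard_eq h3
      obtain ⟨x, y, z, hxy, hxz, hyz, rfl⟩ := Set.encard_eq_three.1 hW3
      have hx := hW (show x ∈ ({x, y, z} : Set ℝ) by simp)
      have hy := hW (show y ∈ ({x, y, z} : Set ℝ) by simp)
      have hz := hW (show z ∈ ({x, y, z} : Set ℝ) by simp)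
      have F : ∀ u v w : ℝ, u ∈ Prod.snd '' U → v ∈ Prod.snd '' U → w ∈ Prod.snd '' U →
          u < v → v < w → False := by
        rintro u v w ⟨⟨a₁, b₁⟩, ⟨ha1, hab1, hB1⟩, rfl⟩ ⟨⟨a₂, b₂⟩, ⟨ha2, hab2, hB2⟩, rfl⟩
          ⟨⟨a₃, b₃⟩, ⟨ha3, hab3, hB3⟩, rfl⟩ huv hvw
        simp only at ha1 hab1 hB1 ha2 hab2 hB2 ha3 hab3 hB3 huv hvw
        refine hM ⟨a₁, ha1⟩ ⟨b₁, ha1.trans hab1.le⟩ ⟨a₂, ha2⟩ ⟨b₂, ha2.trans hab2.le⟩ ⟨a₃, ha3⟩
          ⟨b₃, ha3.trans hab3.le⟩ hab1 hab2 hab3 huv hvw (fun k => ?_) (fun k => ?_) (fun k => ?_)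
        · exact congrFun hB1 k
        · exact congrFun hB2 k
        · exact congrFun hB3 k
      rcases lt_or_gt_of_ne hxy with h1 | h1 <;> rcases lt_or_gt_of_ne hxz with h2 | h2 <;>
        rcases lt_or_gt_of_ne hyz with h4 | h4
      · exact F x y z hx hy hz h1 h4
      · exact F x z y hx hz hy h2 h4
      · exact absurd (h1.trans h4) (not_lt.2 h2.le)
      · exact F z x y hz hx hy h2 h1
      · exact F y x z hy hx hz h1 h2
      · exact absurd (h2.trans h4) (not_lt.2 h1.le)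
      · exact F y z x hy hz hx h4 h2
      · exact F z y x hz hy hx h4 h1
    have hU2 : U.encard ≤ 2 := by
      rw [← hinj.encard_image]
      exact hR
    have hsub : Y B ω s ⊆ U ∪ Prod.swap '' U := by
      rintro ⟨t, t'⟩ ⟨h1, h2, h3, h4⟩
      simp only at h1 h2 h3 h4
      rcases lt_or_gt_of_ne h3 with h | h
      · exact Or.inl ⟨h1, h, h4⟩
      · exact Or.inr ⟨(t', t), ⟨h2, h, h4.symm⟩, rfl⟩
    have key : (Y B ω s).encard ≤ 4 := by
      calc (Y B ω s).encard ≤ (U ∪ Prod.swap '' U).encard := Set.encard_le_encard hsub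
        _ ≤ U.encard + (Prod.swap '' U).encard := Set.encard_union_le _ _
        _ ≤ 2 + 2 := by
            gcongr
            exact (Set.encard_image_le _ _).trans hU2
        _ = 4 := by norm_num
    refine ⟨?_, key⟩
    exact Set.finite_of_encard_le_coe (k := 4) (by exact_mod_cast key)
  · intro Ω _ P _ B hB c a l hc ha hl
    obtain ⟨hmeas, hcont, hchar⟩ := hB.scale hc
    have hS := toX_isSheet P _ hmeas hchar
    have hcc : ∀ᵐ ω ∂P, ∀ k, Continuous (fun p : ℝ≥0 × ℝ≥0 =>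
        toX (fun p ω => (√c)⁻¹ • B (c * p.1, p.2) ω) (k, p.1, p.2) ω) := by
      filter_upwards [hcont] with ω hω k
      exact toX_cont _ hω k
    obtain ⟨A, hA, hPA, hAω⟩ := hS.exists_event_double hcc ⟨a, ha⟩ (l := ⟨l, hl.le⟩) hl
    refine ⟨A, hA, hPA, fun ω hω => ?_⟩
    obtain ⟨s, hs1, hs2, hs⟩ := hAω ω hω
    have hs1' : (1 : ℝ) ≤ s := by exact_mod_cast hs1
    have hs2' : (s : ℝ) ≤ 2 := by exact_mod_cast hs2
    refine ⟨c * s, by nlinarith, by nlinarith, ?_⟩
    have hinj : Function.Injective (fun q : ℝ≥0 × ℝ≥0 => ((q.1 : ℝ), (q.2 : ℝ))) := by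
      intro q q' h
      simp only [Prod.mk.injEq, NNReal.coe_inj] at h
      exact Prod.ext h.1 h.2
    refine (hs.image hinj.injOn).mono ?_
    rintro _ ⟨⟨t, t'⟩, ⟨h1, h2, h3, h4⟩, rfl⟩
    simp only at h1 h2 h3 h4
    have h1' : a ≤ (t : ℝ) := h1
    have h2' : (t : ℝ) < t' := by exact_mod_cast h2
    have h3' : (t' : ℝ) < a + l := h3
    refine ⟨⟨t.2, t'.2, h2'.ne, ?_⟩, ⟨⟨h1', h2'.trans h3'⟩, ⟨h1'.trans h2'.le, h3'⟩⟩⟩
    funext k
    have h5 := h4 k
    unfold toX at h5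
    simp only [Pi.smul_apply, smul_eq_mul] at h5
    have h6 : (√c)⁻¹ ≠ 0 := inv_ne_zero (Real.sqrt_pos.2 hc).ne'
    exact mul_left_cancel₀ h6 h5

end Pool.Agent.Results.MP_ef552a_pr.BothDimensions
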